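import Mathlib

open Set Cardinal TopologicalSpace Filter Topology

namespace Pool.Agent.Results.MP_5382b1_gt.Rigid

abbrev G := ℕ → ZMod 2

theorem add_self (x : G) : x + x = 0 := funext fun n => CharTwo.add_self_eq_zero (x n)

def H (D : Set G) (T : Set (G × G × Bool)) (b : Bool) : AddSubmonoid G :=
  .closure {z | (b = true ∧ z ∈ D) ∨ ∃ t ∈ T, t.2.2 = b ∧ t.1 = z}

def V (D : Set G) (T : Set (G × G × Bool)) : AddSubmonoid G :=
  .closure (D ∪ (Prod.fst '' T ∪ (fun t => t.2.1) '' T))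

variable {D : Set G} {T T' : Set (G × G × Bool)} {b : Bool} {z : G}

theorem H_mono (h : T ⊆ T') (hz : z ∈ H D T b) : z ∈ H D T' b :=
  AddSubmonoid.closure_mono (fun _ hx => hx.imp_right fun ⟨t, h1, h2⟩ => ⟨t, h h1, h2⟩) hz

theorem V_mono (h : T ⊆ T') (hz : z ∈ V D T) : z ∈ V D T' :=
  AddSubmonoid.closure_mono (by gcongr) hz

theorem HV (hz : z ∈ H D T b) : z ∈ V D T :=
  AddSubmonoid.closure_mono (fun _ hx => hx.imp (·.2) fun ⟨t, h1, h2⟩ => Or.inl ⟨t, h1, h2.2⟩) hz

theorem ins {t : G × G × Bool} (hz : z ∈ H D (insert t T) b) :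
    z ∈ H D T b ∨ (t.2.2 = b ∧ z + t.1 ∈ H D T b) := by
  induction hz using AddSubmonoid.closure_induction with
  | mem x hx =>
    rcases hx with hx | ⟨s, rfl | hs, h1, rfl⟩
    · exact Or.inl (AddSubmonoid.subset_closure (Or.inl hx))
    · exact Or.inr ⟨h1, by rw [add_self]; exact zero_mem _⟩
    · exact Or.inl (AddSubmonoid.subset_closure (Or.inr ⟨s, hs, h1, rfl⟩))
  | zero => exact Or.inl (zero_mem _)
  | add x y _ _ hx hy =>
    rcases hx with hx | ⟨h, hx⟩ <;> rcases hy with hy | ⟨h', hy⟩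
    · exact Or.inl (add_mem hx hy)
    · exact Or.inr ⟨h', by rw [add_assoc]; exact add_mem hx hy⟩
    · exact Or.inr ⟨h, by rw [add_right_comm]; exact add_mem hx hy⟩
    · exact Or.inl (by simpa [add_add_add_comm, add_self] using add_mem hx hy)

theorem card_closure {S : Set G} (hS : #S < 𝔠) : #(AddSubmonoid.closure S) < 𝔠 := by
  have : (AddSubmonoid.closure S : Set G) ⊆ range fun l : List S => (l.map Subtype.val).sum := by
    intro x hx
    obtain ⟨l, hl, rfl⟩ := AddSubmonoid.exists_list_of_mem_closure hx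
    lift l to List S using hl
    exact ⟨l, rfl⟩
  exact (mk_le_mk_of_subset this).trans_lt (mk_range_le.trans_lt ((mk_list_le_max _).trans_lt
    (max_lt aleph0_lt_continuum hS)))

theorem union_lt {α : Type} {s t : Set α} (hs : #s < 𝔠) (ht : #t < 𝔠) : #(s ∪ t : Set α) < 𝔠 :=
  (mk_union_le _ _).trans_lt (add_lt_of_lt aleph0_le_continuum hs ht)

theorem card_V (hD : D.Countable) (hT : #T < 𝔠) : #(V D T) < 𝔠 :=
  card_closure (union_lt ((le_aleph0_iff_set_countable.2 hD).trans_lt aleph0_lt_continuum)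
    (union_lt (mk_image_le.trans_lt hT) (mk_image_le.trans_lt hT)))

def Good (D : Set G) (T : Set (G × G × Bool)) (t : G × G × Bool) : Prop :=
  t.1 ∉ V D T ∧ (∀ b, t.2.1 ∉ H D T b) ∧ t.2.1 + t.1 ∉ H D T t.2.2

section
variable {I : Type} [LinearOrder I] {p : I → G × G × Bool}
  (hp : ∀ i, (p i).1 ∈ V D (p '' Iio i) → (p i).1 = 0)

omit [LinearOrder I] in
theorem fin (hz : z ∈ H D (range p) b) : ∃ F : Finset I, z ∈ H D (p '' F) b := by
  classical
  induction hz using AddSubmonoid.closure_induction with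
  | mem x hx =>
    rcases hx with hx | ⟨_, ⟨i, rfl⟩, h⟩
    · exact ⟨∅, AddSubmonoid.subset_closure (Or.inl hx)⟩
    · exact ⟨{i}, AddSubmonoid.subset_closure (Or.inr ⟨_, ⟨i, by simp, rfl⟩, h⟩)⟩
  | zero => exact ⟨∅, zero_mem _⟩
  | add x y _ _ hx hy =>
    obtain ⟨F, hF⟩ := hx
    obtain ⟨F', hF'⟩ := hy
    exact ⟨F ∪ F', add_mem (H_mono (image_mono (by simp)) hF) (H_mono (image_mono (by simp)) hF')⟩

include hp

theorem stepC {i : I} {F : Set I} (hF : F ⊆ Iio i) (hz : z ∈ H D (p '' insert i F) b)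
    (hV : z ∈ V D (p '' Iio i)) : z ∈ H D (p '' F) b := by
  rw [image_insert_eq] at hz
  refine (ins hz).elim id fun h => ?_
  have := add_mem hV (V_mono (image_mono hF) (HV h.2))
  rw [← add_assoc, add_self, zero_add] at this
  simpa [hp i this] using h.2

theorem lemA {J : Set I} (hJ : IsLowerSet J) (hz : z ∈ H D (range p) b) (hV : z ∈ V D (p '' J)) :
    z ∈ H D (p '' J) b := by
  obtain ⟨F, hF⟩ := fin hz
  induction F using Finset.induction_on_max with
  | empty => exact H_mono (by simp) hF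
  | insert i F hi ih =>
    rw [Finset.coe_insert] at hF
    by_cases h : i ∈ J
    · exact H_mono (image_mono (insert_subset h fun j hj => hJ (hi j hj).le h)) hF
    · exact ih (stepC hp hi hF (V_mono (image_mono fun j hj => not_le.1 fun h' => h (hJ h' hj)) hV))

theorem lemB (hz : ∀ b, z ∈ H D (range p) b) : z = 0 := by
  classical
  obtain ⟨F, hF⟩ : ∃ F : Finset I, ∀ b, z ∈ H D (p '' F) b := by
    obtain ⟨F, hF⟩ := fin (hz true)
    obtain ⟨F', hF'⟩ := fin (hz false)
    exact ⟨F ∪ F', Bool.rec (H_mono (image_mono (by simp)) hF') (H_mono (image_mono (by simp)) hF)⟩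
  induction F using Finset.induction_on_max with
  | empty => simpa [H] using hF false
  | insert i F hi ih =>
    rw [Finset.coe_insert] at hF
    refine ih fun b => stepC hp hi (hF b) ?_
    have := hF (!(p i).2.2)
    rw [image_insert_eq] at this
    exact V_mono (image_mono hi) (HV ((ins this).resolve_right fun h => by simpa using h.1))

theorem lemN {i : I} (h : Good D (p '' Iio i) (p i)) : (p i).2.1 ∉ H D (range p) b := fun hz => by
  have := lemA hp (isLowerSet_Iic i) hz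
    (AddSubmonoid.subset_closure (Or.inr (Or.inr ⟨_, ⟨i, le_rfl, rfl⟩, rfl⟩)))
  rw [← Iio_insert, image_insert_eq] at this
  exact (ins this).elim (h.2.1 b) fun h' => h.2.2 (h'.1 ▸ h'.2)

end

theorem graph {X : Set G} (f : X → X) (hf : Continuous f) {x : X} {y : G}
    (h : (x.1, y) ∈ closure (range fun x : X => (x.1, (f x).1))) : y = f x := by
  obtain ⟨u, hu, hl⟩ := mem_closure_iff_seq_limit.1 h
  choose v hv using hu
  obtain rfl : (fun n => ((v n).1, (f (v n)).1)) = u := funext hv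
  have h1 : Tendsto v atTop (𝓝 x) :=
    tendsto_subtype_rng.2 ((continuous_fst.tendsto _).comp hl)
  exact tendsto_nhds_unique ((continuous_snd.tendsto _).comp hl)
    (((continuous_subtype_val.comp hf).tendsto x).comp h1)

theorem mkG : #G = 𝔠 := by simp [G]

theorem big {W S : Set G} (hW : IsOpen W) (hne : W.Nonempty) (hS : #S < 𝔠) : ∃ x ∈ W, x ∉ S := by
  classical
  by_contra hc
  push Not at hc
  obtain ⟨t, ht⟩ := compact_covered_by_add_left_translates (isCompact_univ (X := G))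
    (hW.interior_eq.symm ▸ hne)
  have : ∀ t : Finset G, #(⋃ g ∈ t, (g + ·) ⁻¹' W) < 𝔠 := fun t => by
    induction t using Finset.induction_on with
    | empty => simpa using continuum_pos
    | insert g t _ ih =>
      rw [Finset.set_biUnion_insert]
      exact union_lt ((mk_preimage_of_injective _ _ (add_right_injective g)).trans_lt
        ((mk_le_mk_of_subset hc).trans_lt hS)) ih
  exact (this t).not_ge (by simpa [mkG] using mk_le_mk_of_subset ht)

theorem main : ∃ Y : Bool → AddSubmonoid G, Dense (Y true : Set G) ∧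
    ∀ f : (⋃ b, Y b : Set G) ≃ₜ (⋃ b, Y b : Set G), ∀ x, f x = x := by
  classical
  obtain ⟨D, hD, hDd⟩ := exists_countable_dense G
  let I := (𝔠 : Cardinal.{0}).ord.ToType
  obtain ⟨K⟩ : Nonempty (I ≃ (ℕ → G × G)) := Cardinal.eq.1 (by simp [I, mkG])
  let step : (ℕ → G × G) → Set (G × G × Bool) → G × G × Bool := fun k T =>
    if h : ∃ t, Good D T t ∧ (t.1, t.2.1) ∈ closure (range k) then h.choose else (0, 0, true)
  let c : ∀ i : I, (∀ j, j < i → G × G × Bool) → G × G × Bool :=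
    fun i q => step (K i) {t | ∃ j h, q j h = t}
  let p : I → G × G × Bool := WellFoundedLT.fix c
  have hp0 : ∀ i, p i = step (K i) (p '' Iio i) := fun i => by
    have : p i = c i fun j _ => p j := WellFoundedLT.fix_eq c i
    rw [this]
    simp only [c]
    congr 1
    ext t
    simp
  have hp : ∀ i, (p i).1 ∈ V D (p '' Iio i) → (p i).1 = 0 := fun i h => by
    have := hp0 i
    simp only [step] at this
    split_ifs at this with h'
    · exact (h'.choose_spec.1.1 (this ▸ h)).elim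
    · rw [this]
  have hd : Dense (H D (range p) true : Set G) :=
    hDd.mono fun x hx => AddSubmonoid.subset_closure (Or.inl ⟨rfl, hx⟩)
  refine ⟨H D (range p), hd, fun f x₀ => ?_⟩
  have hd' := hd.mono (subset_iUnion (fun b => (H D (range p) b : Set G)) true)
  have hX : ∀ z, z ∈ (⋃ b, H D (range p) b : Set G) ↔ ∃ b, z ∈ H D (range p) b := by simp
  generalize (⋃ b, H D (range p) b : Set G) = X at *
  by_contra hne
  obtain ⟨n, hn⟩ := Function.ne_iff.1 (Subtype.coe_injective.ne hne)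
  have ho : IsOpen {q : G × G | q.2 n ≠ q.1 n} := isOpen_ne_fun (by fun_prop) (by fun_prop)
  have hc : IsClosed {q : G × G | q.2 n ≠ q.1 n} :=
    (isClosed_discrete {r : ZMod 2 × ZMod 2 | r.2 ≠ r.1}).preimage
      (f := fun q : G × G => (q.1 n, q.2 n)) (by fun_prop)
  let γ : X → G × G := fun x => (x.1, (f x).1)
  obtain ⟨W, hW, hW'⟩ := isOpen_induced_iff.1 (ho.preimage (f := γ) (by fun_prop))
  obtain ⟨s, hs, hsc, hs'⟩ := (IsSeparable.of_separableSpace
    (range γ ∩ {q : G × G | q.2 n ≠ q.1 n})).exists_countable_dense_subset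
  obtain ⟨k, rfl⟩ := hsc.exists_eq_range (closure_nonempty_iff.1 ⟨_, hs' ⟨⟨x₀, rfl⟩, hn⟩⟩)
  obtain ⟨i, rfl⟩ := K.surjective k
  have h1 : closure (range (K i)) ⊆ closure (range γ) := closure_mono (hs.trans inter_subset_left)
  have h2 : W ⊆ Prod.fst '' closure (range (K i)) :=
    (hd'.open_subset_closure_inter hW).trans (closure_minimal (fun x hx =>
      ⟨γ ⟨x, hx.2⟩, hs' ⟨⟨_, rfl⟩, (hW'.subset (show (⟨x, hx.2⟩ : X) ∈ _ from hx.1) :)⟩, rfl⟩)
      (isClosed_closure.isCompact.image continuous_fst).isClosed)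
  have h3 : #(V D (p '' Iio i)) < 𝔠 := card_V hD (mk_image_le.trans_lt (mk_Iio_ord_toType i))
  obtain ⟨_, hx, hx'⟩ := big (S := V D (p '' Iio i) ∪ Subtype.val '' (γ ⁻¹' (Prod.snd ⁻¹'
      V D (p '' Iio i)))) hW ⟨x₀, hW'.symm.subset hn⟩ (union_lt h3 (mk_image_le.trans_lt
    ((mk_preimage_of_injective (Prod.snd ∘ γ) _
      (Subtype.val_injective.comp f.injective)).trans_lt h3)))
  obtain ⟨⟨x, y⟩, hxy, rfl⟩ := h2 hx
  have h4 : ∃ b, y + x ∉ H D (p '' Iio i) b := by
    by_contra h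
    push Not at h
    have := congrFun (lemB hp fun b => H_mono (image_subset_range _ _) (h b)) n
    exact closure_minimal (hs.trans inter_subset_right) hc hxy (CharTwo.add_eq_zero.1 this)
  obtain ⟨b, hb⟩ := h4
  have h5 : ∃ t, Good D (p '' Iio i) t ∧ (t.1, t.2.1) ∈ closure (range (K i)) := by
    refine ⟨(x, y, b), ⟨fun h => hx' (Or.inl h), fun b' h => hx' (Or.inr ?_), hb⟩, hxy⟩
    have hy : y ∈ X := (hX y).2 ⟨b', H_mono (image_subset_range _ _) h⟩
    refine ⟨f.symm ⟨y, hy⟩, by simpa [γ] using HV h, (graph f.symm f.symm.continuous ?_).symm⟩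
    refine (closure_mono ?_) (image_closure_subset_closure_image continuous_swap ⟨_, h1 hxy, rfl⟩)
    rintro _ ⟨_, ⟨z, rfl⟩, rfl⟩
    exact ⟨f z, by simp [γ]⟩
  have h6 := h5.choose_spec
  have h7 : p i = h5.choose := (hp0 i).trans (dif_pos h5)
  rw [← h7] at h6
  have h8 : (p i).1 ∈ X :=
    (hX _).2 ⟨_, AddSubmonoid.subset_closure (Or.inr ⟨_, ⟨i, rfl⟩, rfl, rfl⟩)⟩
  obtain ⟨b, hb⟩ := (hX _).1 (f ⟨_, h8⟩).2
  rw [← graph f f.continuous (x := ⟨_, h8⟩) (h1 h6.2)] at hb
  exact lemN hp h6.1 hb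

/-- A space is homogeneous if any point is sent to any other by a self-homeomorphism. -/
def Homogeneous (X : Type) [TopologicalSpace X] : Prop := ∀ x y : X, ∃ h : X ≃ₜ X, h x = y

theorem result : ∃ X : Set (ℕ → ZMod 2),
    MetrizableSpace X ∧ SeparableSpace X ∧ IsTopologicalBasis {s : Set X | IsClopen s} ∧
    (∃ Y : ℕ → Set (ℕ → ZMod 2), X = ⋃ n, Y n ∧ ∀ n, Homogeneous (Y n)) ∧
    Nontrivial X ∧ ∀ h : X ≃ₜ X, ∀ x, h x = x := by
  obtain ⟨Y, hY, h⟩ := main
  refine ⟨_, inferInstance, inferInstance, ?_, ⟨fun n => Y (n == 0), ?_, fun n x y => ?_⟩, ?_, h⟩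
  · refine (isTopologicalBasis_isClopen.isInducing IsInducing.subtypeVal).of_isOpen_of_subset
      (fun _ h => h.2) ?_
    rintro _ ⟨s, hs, rfl⟩
    exact hs.preimage continuous_subtype_val
  · ext x
    simp only [mem_iUnion]
    exact ⟨fun ⟨b, hb⟩ => b.rec (fun hb => ⟨1, hb⟩) (fun hb => ⟨0, hb⟩) hb, fun ⟨n, hn⟩ => ⟨_, hn⟩⟩
  · let g : (Y (n == 0) : Set G) → (Y (n == 0) : Set G) := fun z =>
      ⟨z.1 + (x.1 + y.1), add_mem z.2 (add_mem x.2 y.2)⟩
    have hg : ∀ z, g (g z) = z := fun z => Subtype.ext (by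
      simp only [g]; rw [add_assoc, add_self, add_zero])
    have hc : Continuous g := by fun_prop
    exact ⟨⟨⟨g, g, hg, hg⟩, hc, hc⟩, Subtype.ext (by simp [g, ← add_assoc, add_self])⟩
  · obtain ⟨x, hx, hx'⟩ := hY.inter_open_nonempty {0}ᶜ isOpen_compl_singleton ⟨1, by simp⟩
    exact ⟨⟨x, mem_iUnion.2 ⟨true, hx'⟩⟩, ⟨0, mem_iUnion.2 ⟨true, zero_mem _⟩⟩,
      fun h => hx (congrArg Subtype.val h)⟩

end Pool.Agent.Results.MP_5382b1_gt.Rigid
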